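import Mathlib

set_option autoImplicit false

namespace Pool.Agent.H.MP_0b7c94_al

lemma sum_zero {D : Type} [Fintype D] {p : ℕ} [Fact p.Prime] (σ : Equiv.Perm D) (hσ : σ ^ p = 1)
    (hf : ∀ d, σ d ≠ d) (F : D → ZMod p) (hF : ∀ d, F (σ d) = F d) : ∑ d, F d = 0 := by
  classical
  rw [← Finset.sum_fiberwise Finset.univ F]
  refine Finset.sum_eq_zero fun c _ => ?_
  rw [Finset.sum_congr rfl (g := fun _ => c) fun d hd => (Finset.mem_filter.1 hd).2,
    Finset.sum_const, nsmul_eq_mul, ← Fintype.card_subtype]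
  have : p ∣ Fintype.card {d // F d = c} := by
    by_contra h
    obtain ⟨a, ha⟩ := Equiv.Perm.exists_fixed_point_of_prime (n := 1) h
      (σ := σ.subtypePerm (p := fun d => F d = c) fun d => by rw [hF])
      (by rw [pow_one, Equiv.Perm.subtypePerm_pow]; ext; simp [hσ])
    exact hf a (congrArg Subtype.val ha)
  rw [(ZMod.natCast_eq_zero_iff _ _).2 this, zero_mul]

lemma ex_prime {T : Type} [Group T] [Finite T] (g : T) (hg : g ≠ 1) :
    ∃ (p n : ℕ), p.Prime ∧ p ∣ Nat.card T ∧ g ^ n ≠ 1 ∧ (g ^ n) ^ p = 1 := by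
  have h0 := orderOf_pos g
  obtain ⟨p, hp, n, hn⟩ := Nat.exists_prime_and_dvd (n := orderOf g) (by simpa using hg)
  have hn0 : n ≠ 0 := by rintro rfl; rw [mul_zero] at hn; omega
  refine ⟨p, n, hp, (Dvd.intro _ hn.symm).trans (orderOf_dvd_natCard g), ?_, ?_⟩
  · refine pow_ne_one_of_lt_orderOf hn0 ?_
    have := hp.one_lt
    have : 0 < n := Nat.pos_of_ne_zero hn0
    nlinarith
  · rw [← pow_mul, mul_comm, ← hn, pow_orderOf_eq_one]

/-- a finite group in which every non-identity element has exactly one fixed point, acting with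
all point stabilisers nontrivial, fixes a point -/
lemma burn {T Y : Type} [Group T] [Finite T] [Finite Y] [MulAction T Y] [Nontrivial T]
    (h1 : ∀ g : T, g ≠ 1 → ∃! y : Y, g • y = y) (h2 : ∀ y : Y, ∃ g : T, g ≠ 1 ∧ g • y = y) :
    ∃ y : Y, ∀ g : T, g • y = y := by
  classical
  have := Fintype.ofFinite T
  have := Fintype.ofFinite Y
  have hb := MulAction.sum_card_fixedBy_eq_card_orbits_mul_card_group T Y
  have e1 : ∑ g : T, Fintype.card (MulAction.fixedBy Y g) + 1 = Fintype.card Y + Fintype.card T := by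
    rw [← Finset.add_sum_erase _ _ (Finset.mem_univ 1), Finset.sum_congr rfl (g := fun _ => 1)]
    · have : 0 < Fintype.card T := Fintype.card_pos
      simp [Finset.card_erase_of_mem]
      omega
    · intro g hg
      obtain ⟨y, hy, hu⟩ := h1 g (Finset.mem_erase.1 hg).1
      exact Fintype.card_eq_one_iff.2 ⟨⟨y, hy⟩, fun z => Subtype.ext (hu _ z.2)⟩
  choose s hs1 hs2 using h2
  have e2 : Fintype.card Y < Fintype.card T := by
    refine Fintype.card_lt_of_injective_of_notMem s (fun y z e => ?_) (b := 1) ?_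
    · exact (h1 _ (hs1 y)).unique (hs2 y) (e ▸ hs2 z)
    · rintro ⟨y, hy⟩; exact hs1 y hy
  obtain ⟨g, hg⟩ := exists_ne (1 : T)
  obtain ⟨y, -, -⟩ := h1 g hg
  have e3 : 0 < Fintype.card Y := Fintype.card_pos_iff.2 ⟨y⟩
  have e4 : Fintype.card Y = 1 := by
    rw [hb] at e1
    generalize Fintype.card (Quotient (MulAction.orbitRel T Y)) = r at e1
    rcases r with _ | _ | r
    · omega
    · omega
    · nlinarith
  exact ⟨y, fun g => Fintype.card_le_one_iff.1 e4.le _ _⟩

lemma fix_of_stable {T V W : Type} [Group T] [Finite T] [Finite V] [MulAction T V] [MulAction T W]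
    (v0 : V) (π : W → V) (hπ : ∀ (t : T) w, π (t • w) = t • π w)
    (F1 : ∀ (a : T) (p : ℕ), p.Prime → p ∣ Nat.card T → a ^ p = 1 → ∃ w : W, a • w = w)
    (F2 : ∀ (a : T) (p : ℕ), p.Prime → p ∣ Nat.card T → a ≠ 1 → a ^ p = 1 →
      ∀ v w : W, a • v = v → a • w = w → π v = π w)
    (F3 : ∀ y : V, ∃ w : W, ∀ t : T, t • y = y → t • w = w) : ∃ y : V, ∀ t : T, t • y = y := by
  rcases subsingleton_or_nontrivial T with _ | _
  · exact ⟨v0, fun t => by rw [Subsingleton.elim t 1, one_smul]⟩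
  have pw : ∀ (a : T) (n : ℕ) (w : W), a • w = w → a ^ n • w = w := fun a n w h =>
    (MulAction.stabilizer T w).pow_mem h n
  have G2 : ∀ a : T, a ≠ 1 → ∀ v w : W, a • v = v → a • w = w → π v = π w := by
    intro a ha v w hv hw
    obtain ⟨p, n, hp, hd, h1, h2⟩ := ex_prime a ha
    exact F2 _ p hp hd h1 h2 v w (pw _ _ _ hv) (pw _ _ _ hw)
  let Y : SubMulAction T V :=
    { carrier := {y | ∃ (w : W) (a : T), a ≠ 1 ∧ a • w = w ∧ π w = y}
      smul_mem' := by
        rintro t _ ⟨w, a, ha, hw, rfl⟩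
        exact ⟨t • w, t * a * t⁻¹, by simpa using ha, by simp [mul_smul, hw], hπ ..⟩ }
  obtain ⟨y, hy⟩ := burn (T := T) (Y := Y) (fun g hg => by
      obtain ⟨p, n, hp, hd, h1, h2⟩ := ex_prime g hg
      obtain ⟨w, hw⟩ := F1 _ p hp hd h2
      have key : ∀ y : Y, g • y = y → ∃ u : W, g • u = u ∧ π u = y := by
        rintro ⟨_, v, a, ha, hv, rfl⟩ hy
        obtain ⟨u, hu⟩ := F3 (π v)
        exact ⟨u, hu g (congrArg Subtype.val hy), G2 a ha _ _ (hu a (by rw [← hπ, hv])) hv⟩
      refine existsUnique_of_exists_of_unique ⟨⟨π w, w, _, h1, hw, rfl⟩, Subtype.ext ?_⟩ ?_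
      · change g • π w = π w
        rw [← hπ]
        exact G2 _ h1 _ _ (by rw [← mul_smul, pow_mul_comm', mul_smul, hw]) hw
      · intro y z hy hz
        obtain ⟨u, hu, e⟩ := key y hy
        obtain ⟨u', hu', e'⟩ := key z hz
        exact Subtype.ext (by rw [← e, ← e']; exact G2 g hg _ _ hu hu'))
    (by
      rintro ⟨_, v, a, ha, hv, rfl⟩
      exact ⟨a, ha, Subtype.ext (by change a • π v = π v; rw [← hπ, hv])⟩)
  exact ⟨y, fun t => congrArg Subtype.val (hy t)⟩

section cover
variable {E V : Type} [Group E] [Fintype E] [MulAction E V] (v0 : V) {A : Type} [CommRing A]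

def pr (c : E × E → A) (φ : V → A) : A := ∑ e, c e * (φ (e.2 • v0) - φ (e.1 • v0))
def Bd (c : E × E → A) (v w : V) : Prop := ∀ φ : V → A, pr v0 c φ = φ w - φ v
def sh (g : E) (c : E × E → A) : E × E → A := fun e => c (g⁻¹ • e)

omit [Fintype E] [CommRing A] in
lemma sh_mul (g h : E) (c : E × E → A) : sh (g * h) c = sh g (sh h c) := by
  funext e; simp [sh, mul_smul]
omit [Fintype E] [CommRing A] in
lemma sh_one (c : E × E → A) : sh 1 c = c := by funext e; simp [sh]
omit [Fintype E] in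
lemma sh_add (g : E) (c d : E × E → A) : sh g (c + d) = sh g c + sh g d := rfl
omit [Fintype E] in
lemma sh_zero (g : E) : sh g (0 : E × E → A) = 0 := rfl

lemma pr_sh (g : E) (c : E × E → A) (φ : V → A) :
    pr v0 (sh g c) φ = pr v0 c fun v => φ (g • v) := by
  refine (Fintype.sum_equiv (MulAction.toPerm g) _ _ fun e => ?_).symm
  simp [sh, mul_smul]

lemma pr_add (c d : E × E → A) (φ : V → A) : pr v0 (c + d) φ = pr v0 c φ + pr v0 d φ := by
  simp [pr, add_mul, Finset.sum_add_distrib]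
lemma pr_neg (c : E × E → A) (φ : V → A) : pr v0 (-c) φ = - pr v0 c φ := by
  simp [pr]

variable {v0}
lemma Bd.add {c d : E × E → A} {u v w : V} (h : Bd v0 c u v) (h' : Bd v0 d v w) :
    Bd v0 (c + d) u w := fun φ => by rw [pr_add, h, h']; ring
lemma Bd.neg {c : E × E → A} {u v : V} (h : Bd v0 c u v) : Bd v0 (-c) v u :=
  fun φ => by rw [pr_neg, h]; ring
lemma Bd.sh {c : E × E → A} {u v : V} (h : Bd v0 c u v) (g : E) :
    Bd v0 (sh g c) (g • u) (g • v) := fun φ => by rw [pr_sh, h]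
lemma Bd.zero (u : V) : Bd v0 (0 : E × E → A) u u := fun φ => by simp [pr]

variable (E v0 A)
@[ext] structure CE where
  g : E
  c : E × E → A
  h : Bd v0 c v0 (g • v0)
@[ext] structure CV where
  v : V
  c : E × E → A
  h : Bd v0 c v0 v
variable {E v0 A}

instance : Mul (CE E v0 A) :=
  ⟨fun x y => ⟨x.g * y.g, x.c + sh x.g y.c, by rw [mul_smul]; exact x.h.add (y.h.sh _)⟩⟩
instance : One (CE E v0 A) := ⟨⟨1, 0, by rw [one_smul]; exact Bd.zero _⟩⟩
instance : Inv (CE E v0 A) :=
  ⟨fun x => ⟨x.g⁻¹, -sh x.g⁻¹ x.c, by simpa using (x.h.sh x.g⁻¹).neg⟩⟩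
instance : SMul (CE E v0 A) (CV E v0 A) :=
  ⟨fun x y => ⟨x.g • y.v, x.c + sh x.g y.c, x.h.add (y.h.sh _)⟩⟩

@[simp] lemma mul_g (x y : CE E v0 A) : (x * y).g = x.g * y.g := rfl
@[simp] lemma mul_c (x y : CE E v0 A) : (x * y).c = x.c + sh x.g y.c := rfl
@[simp] lemma one_g : (1 : CE E v0 A).g = 1 := rfl
@[simp] lemma one_c : (1 : CE E v0 A).c = 0 := rfl
@[simp] lemma inv_g (x : CE E v0 A) : (x⁻¹).g = x.g⁻¹ := rfl
@[simp] lemma inv_c (x : CE E v0 A) : (x⁻¹).c = -sh x.g⁻¹ x.c := rfl
@[simp] lemma smul_v (x : CE E v0 A) (y : CV E v0 A) : (x • y).v = x.g • y.v := rfl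
@[simp] lemma smul_c (x : CE E v0 A) (y : CV E v0 A) : (x • y).c = x.c + sh x.g y.c := rfl

instance : Group (CE E v0 A) := Group.ofLeftAxioms
  (fun x y z => by ext1 <;> simp [mul_assoc, sh_mul, sh_add, add_assoc])
  (fun x => by ext1 <;> simp [sh_one])
  (fun x => by ext1 <;> simp)

instance : MulAction (CE E v0 A) (CV E v0 A) where
  one_smul x := by ext1 <;> simp [sh_one]
  mul_smul x y z := by ext1 <;> simp [mul_smul, sh_mul, sh_add, add_assoc]

instance [Finite A] : Finite (CE E v0 A) :=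
  Finite.of_injective (fun x => (x.g, x.c)) fun x y h => by
    simp only [Prod.mk.injEq] at h
    exact CE.ext h.1 h.2
instance [Finite A] [Finite V] : Finite (CV E v0 A) :=
  Finite.of_injective (fun x => (x.v, x.c)) fun x y h => by
    simp only [Prod.mk.injEq] at h
    exact CV.ext h.1 h.2

def pE : CE E v0 A →* E where
  toFun := CE.g
  map_one' := rfl
  map_mul' _ _ := rfl

lemma pE_surj : Function.Surjective (pE : CE E v0 A →* E) := by
  classical
  exact fun g => ⟨⟨g, Pi.single (1, g) 1, fun φ => by simp [pr, Pi.single_apply]⟩, rfl⟩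

lemma pE_solv : Group.IsSolvable (pE : CE E v0 A →* E).ker := by
  refine Group.isSolvable_of_comm fun ⟨x, hx⟩ ⟨y, hy⟩ => Subtype.ext ?_
  have hx : x.g = 1 := hx
  have hy : y.g = 1 := hy
  ext1 <;> simp [hx, hy, sh_one, add_comm]

lemma cov2 {p : ℕ} [Fact p.Prime] (ψ : A →+* ZMod p) (a : CE E v0 A) (ha : a.g ≠ 1)
    (hp : a.g ^ p = 1) (x y : CV E v0 A) (hx : a • x = x) (hy : a • y = y) : x.v = y.v := by
  classical
  by_contra hne
  have hxv : a.g • x.v = x.v := congrArg CV.v hx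
  have hyv : a.g • y.v = y.v := congrArg CV.v hy
  have hxc : a.c + sh a.g x.c = x.c := congrArg CV.c hx
  have hyc : a.c + sh a.g y.c = y.c := congrArg CV.c hy
  have h1 := congrArg ψ ((x.h.neg.add y.h) (Pi.single y.v 1))
  have h2 : ∀ v, (Pi.single y.v 1 : V → A) (a.g • v) = (Pi.single y.v 1 : V → A) v := by
    intro v
    simp only [Pi.single_apply]
    congr 1
    rw [eq_iff_iff, ← smul_left_cancel_iff a.g (x := v), hyv]
  rw [pr, map_sum, sum_zero (MulAction.toPerm a.g) (by
      rw [← MulAction.toPermHom_apply, ← map_pow, hp, map_one])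
    (fun d hd => ha (by simpa using congrArg Prod.fst hd))] at h1
  · simp [hne] at h1
  · intro d
    have e1 := congrFun hxc (a.g • d)
    have e2 := congrFun hyc (a.g • d)
    simp only [sh, Pi.add_apply, inv_smul_smul] at e1 e2
    simp only [MulAction.toPerm_apply, Pi.add_apply, Pi.neg_apply, Prod.smul_fst, Prod.smul_snd,
      smul_eq_mul, mul_smul, h2]
    rw [← e1, ← e2]
    congr 2
    ring

lemma cov1 [Finite V] {T : Type} [Group T] (f : T →* CE E v0 A)
    (hf : Function.Injective (pE.comp f)) {p : ℕ} [Fact p.Prime] (ψ : A →+* ZMod p) (a : T)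
    (hp : a ^ p = 1) : ∃ v : V, (f a).g • v = v := by
  classical
  have := Fintype.ofFinite V
  by_contra hne
  push Not at hne
  set f0 := pE.comp f with hf0
  have ex : ∀ x : E, ∃ t : T,
      f0 t = x * (Quotient.mk (QuotientGroup.rightRel f0.range) x).out⁻¹ := fun x =>
    MonoidHom.mem_range.1 (QuotientGroup.rightRel_apply.1 (Quotient.exact (Quotient.out_eq
      (Quotient.mk (QuotientGroup.rightRel f0.range) x))))
  choose τ hτ using ex
  have hτa : ∀ x, τ (f0 a * x) = a * τ x := fun x => hf (by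
    have : Quotient.mk (QuotientGroup.rightRel f0.range) (f0 a * x) = Quotient.mk _ x :=
      Quotient.sound (QuotientGroup.rightRel_apply.2 ⟨a⁻¹, by simp⟩)
    rw [hτ, map_mul, hτ, this, mul_assoc])
  let b : E × E → A := fun e => (f (τ e.1)).c e
  have hb : b = (f a).c + sh (f a).g b := by
    funext e
    have : τ e.1 = a * τ ((f a).g⁻¹ * e.1) := by
      rw [← hτa]; congr 1; simp [hf0, pE]
    simp only [b, Pi.add_apply, sh]
    rw [this, map_mul]
    rfl
  let u : V → A := fun v => (Pi.single v 1 : V → A) v0 + pr v0 b (Pi.single v 1)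
  have hu : ∑ v, u v = 1 := by
    simp only [u, Finset.sum_add_distrib, pr]
    rw [Finset.sum_comm]
    simp [Pi.single_apply, ← Finset.mul_sum]
  have hua : ∀ v, u ((f a).g • v) = u v := by
    intro v
    have h2 : (fun w => (Pi.single ((f a).g • v) 1 : V → A) ((f a).g • w)) = Pi.single v 1 := by
      funext w; simp [Pi.single_apply]
    simp only [u]
    conv_lhs => rw [hb, pr_add, pr_sh, (f a).h, h2]
    rw [← congrFun h2 v0]
    ring
  have := sum_zero (MulAction.toPerm (f a).g) (by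
      rw [← MulAction.toPermHom_apply, ← map_pow]
      change MulAction.toPermHom E V (f0 a ^ p) = 1
      rw [← map_pow, hp, map_one, map_one]) hne (fun v => ψ (u v)) fun v => by simp [hua]
  rw [← map_sum, hu] at this
  simp at this

end cover

end Pool.Agent.H.MP_0b7c94_al
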