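import Mathlib
import Pool.Agent.H.MP_0b7c94_al.A
import Pool.Agent.H.MP_7538d4_al.C

set_option autoImplicit false

namespace Pool.Agent.H.MP_0b7c94_al

structure Lev (H : Type) [Group H] where
  E : Type
  V : Type
  [gE : Group E]
  [fE : Fintype E]
  [fV : Finite V]
  [aV : MulAction E V]
  v0 : V
  ι : H →* E
  hι : ∀ h, ι h • v0 = v0

attribute [instance] Lev.gE Lev.fE Lev.fV Lev.aV

variable {H : Type} [Group H] (m : ℕ) [NeZero m]

noncomputable def up (L : Lev H) : Lev H where
  E := CE L.E L.v0 (ZMod m)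
  V := CV L.E L.v0 (ZMod m)
  fE := Fintype.ofFinite _
  v0 := ⟨L.v0, 0, Bd.zero _⟩
  ι :=
    { toFun := fun h => ⟨L.ι h, 0, by rw [L.hι]; exact Bd.zero _⟩
      map_one' := by ext1 <;> simp
      map_mul' := fun x y => by ext1 <;> simp [sh_zero] }
  hι h := by
    refine CV.ext (L.hι h) ?_
    change 0 + sh _ 0 = 0
    rw [sh_zero, add_zero]

noncomputable def upn : ℕ → Lev H → Lev H
  | 0, L => L
  | n + 1, L => upn n (up m L)

noncomputable def pn : ∀ (n : ℕ) (L : Lev H), (upn m n L).E →* L.E
  | 0, _ => MonoidHom.id _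
  | n + 1, L => (pE (v0 := L.v0) (A := ZMod m)).comp (pn n (up m L))

lemma pn_ι (n : ℕ) (L : Lev H) (h : H) : pn m n L ((upn m n L).ι h) = L.ι h := by
  induction n generalizing L with
  | zero => rfl
  | succ n ih => exact congrArg CE.g (ih (up m L))

lemma pn_surj (n : ℕ) (L : Lev H) : Function.Surjective (pn m n L) := by
  induction n generalizing L with
  | zero => exact Function.surjective_id
  | succ n ih => exact pE_surj.comp (ih (up m L))

lemma solv_comp {A B C : Type} [Group A] [Group B] [Group C] (f : A →* B) (g : B →* C)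
    [Group.IsSolvable f.ker] [Group.IsSolvable g.ker] : Group.IsSolvable (g.comp f).ker :=
  Group.isSolvable_of_ker_le_range
    (Subgroup.inclusion (H := f.ker) (K := (g.comp f).ker) fun x hx => by
      rw [MonoidHom.mem_ker] at hx ⊢; simp [hx])
    ((f.comp (g.comp f).ker.subtype).codRestrict g.ker fun x => x.2)
    fun x hx => ⟨⟨x, congrArg Subtype.val hx⟩, rfl⟩

lemma pn_solv (n : ℕ) (L : Lev H) : Group.IsSolvable (pn m n L).ker := by
  induction n generalizing L with
  | zero => exact Group.isSolvable_of_comm fun x y => Subtype.ext (by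
      rw [Subgroup.coe_mul, Subgroup.coe_mul, show x.1 = 1 from x.2, one_mul, mul_one])
  | succ n ih =>
    exact @solv_comp _ _ _ _ _ _ (pn m n (up m L)) (pE (v0 := L.v0) (A := ZMod m)) (ih _) pE_solv

def FF {T : Type} [Group T] (L : Lev H) (f : T →* L.E) : Set (Set T) :=
  {K | ∃ v : L.V, ∀ t ∈ K, f t • v = v}

theorem kill {T : Type} [Group T] [Finite T] (hm : ∀ p, p ∣ Nat.card T → p.Prime → p ∣ m) (n : ℕ)
    (L : Lev H) (F : T →* (upn m (n + 1) L).E) (hF : Function.Injective ((pn m (n + 1) L).comp F))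
    (hn : (FF L ((pn m (n + 1) L).comp F)).ncard < n) :
    Set.univ ∈ FF L ((pn m (n + 1) L).comp F) := by
  induction n generalizing L with
  | zero => omega
  | succ n ih =>
    set f' : T →* (up m L).E := (pn m (n + 1) (up m L)).comp F with hf'
    set f : T →* L.E := (pn m (n + 1 + 1) L).comp F with hf
    have e : f = (pE (v0 := L.v0) (A := ZMod m)).comp f' := rfl
    have hi : Function.Injective f' := Function.Injective.of_comp (f := CE.g) hF
    have hs : FF (up m L) f' ⊆ FF L f := fun K ⟨v, hv⟩ =>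
      ⟨v.v, fun t ht => congrArg CV.v (hv t ht)⟩
    by_cases h : FF (up m L) f' = FF L f
    · let _ := MulAction.compHom L.V f
      let _ := MulAction.compHom (up m L).V f'
      obtain ⟨y, hy⟩ := fix_of_stable (T := T) (V := L.V) (W := (up m L).V) L.v0 CV.v
        (fun _ _ => rfl)
        (fun a p hp hd ha => by
          have := Fact.mk hp
          exact cov1 ((pn m n (up m (up m L))).comp F) hi
            (ZMod.castHom (hm p hd hp) (ZMod p)) a ha)
        (fun a p hp hd h1 ha v w hv hw => by
          have := Fact.mk hp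
          exact cov2 (ZMod.castHom (hm p hd hp) (ZMod p)) (f' a)
            (fun h => h1 (hF (h.trans (map_one f).symm)))
            (by change f a ^ p = 1; rw [← map_pow, ha, map_one]) v w hv hw)
        (fun y => by
          have : {t | f t • y = y} ∈ FF L f := ⟨y, fun _ h => h⟩
          rw [← h] at this
          exact this)
      exact ⟨y, fun t _ => hy t⟩
    · have := Set.ncard_lt_ncard (hs.ssubset_of_ne h) (Set.toFinite _)
      exact hs (ih (up m L) F hi (by change (FF (up m L) f').ncard < n; omega))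

/-- no nonabelian simple group embeds -/
def NS (G : Type) [Group G] : Prop :=
  ∀ (T : Type) [Group T] [IsSimpleGroup T] (f : T →* G), Function.Injective f →
    ∀ a b : T, a * b = b * a

structure Gd where
  G : Type
  [g : Group G]
  [f : Finite G]
  [p : Group.IsPerfect G]
  ns : NS G

attribute [instance] Gd.g Gd.f Gd.p

lemma ex_alt (H : Type) [Group H] [Finite H] [Group.IsPerfect H] :
    ∃ (S : Type) (_ : Group S) (_ : Finite S) (_ : IsSimpleGroup S) (_ : Group.IsPerfect S)
      (j : H →* S), Function.Injective j := by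
  classical
  have := Fintype.ofFinite H
  let r : H →* Equiv.Perm (H ⊕ Fin 5) :=
    (Equiv.Perm.viaEmbeddingHom Function.Embedding.inl).comp (MulAction.toPermHom H H)
  have h5 : 5 ≤ Nat.card (H ⊕ Fin 5) := by simp
  have hs := alternatingGroup.isSimpleGroup h5
  refine ⟨alternatingGroup (H ⊕ Fin 5), inferInstance, inferInstance, hs,
    ⟨commutator_alternatingGroup_eq_top h5⟩, r.codRestrict _ fun h => ?_, fun x y h => ?_⟩
  · exact Abelianization.commutator_subset_ker (Equiv.Perm.sign.comp r)
      Group.IsPerfect.mem_commutator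
  · exact MulAction.toPerm_injective
      (Equiv.Perm.viaEmbeddingHom_injective _ (congrArg Subtype.val h))

theorem step (X : Gd) : ∃ Y : Gd, Nontrivial Y.G ∧ ∃ φ : X.G →* Y.G, Function.Injective φ ∧
    ∀ x, x ≠ 1 → ∀ M : Subgroup Y.G, M.Normal → φ x ∈ M → M = ⊤ := by
  obtain ⟨S, _, _, _, _, j, hj⟩ := ex_alt X.G
  have := Fintype.ofFinite S
  let L : Lev X.G :=
    { E := S, V := S ⧸ j.range, v0 := QuotientGroup.mk 1, ι := j
      hι := fun h => QuotientGroup.eq.2 ⟨h⁻¹, by simp⟩ }
  have : NeZero (Nat.card S) := ⟨Nat.card_pos.ne'⟩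
  set K := Nat.card (Set S) + 1
  set U := upn (Nat.card S) (K + 1) L
  let ρ : U.E →* S := pn (Nat.card S) (K + 1) L
  have hρ : Function.Surjective ρ := pn_surj _ _ _
  have hk : Group.IsSolvable ρ.ker := pn_solv ..
  have hι : ∀ h, ρ (U.ι h) = j h := pn_ι _ _ _
  obtain ⟨n, hn⟩ := WellFoundedLT.antitone_chain_condition (derivedSeries_antitone U.E)
  set P := derivedSeries U.E n with hP
  have hp : Group.IsPerfect P := Subgroup.isPerfect_iff.2 (hn (n + 1) (by omega)).symm
  have hmap : P.map ρ = ⊤ := by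
    rw [hP, map_derivedSeries_eq hρ, Group.IsPerfect.derivedSeries_eq_top]
  have hs : Function.Surjective (ρ.comp P.subtype) := fun s => by
    obtain ⟨x, hx, e⟩ : s ∈ P.map ρ := hmap ▸ Subgroup.mem_top s
    exact ⟨⟨x, hx⟩, e⟩
  have hk' : Group.IsSolvable (ρ.comp P.subtype).ker :=
    Group.isSolvable_of_isSolvable_injective
      (f := (P.subtype.comp (ρ.comp P.subtype).ker.subtype).codRestrict ρ.ker fun x => x.2)
      fun x y h => Subtype.ext (Subtype.ext (congrArg (fun z : ρ.ker => z.1) h))
  have ns : NS P := by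
    intro T _ _ f hf
    have : Finite T := Finite.of_injective f hf
    rcases IsSimpleGroup.eq_bot_or_eq_top_of_normal ((ρ.comp P.subtype).comp f).ker inferInstance
      with h | h
    · rw [MonoidHom.ker_eq_bot_iff] at h
      obtain ⟨v, hv⟩ := kill (Nat.card S)
        (fun p hp _ => hp.trans (Subgroup.card_dvd_of_injective _ h)) K L (P.subtype.comp f) h
        (Nat.lt_succ_of_le ((Set.ncard_le_card _).trans
          (Nat.card_le_card_of_injective _ (Set.image_injective.2 h))))
      obtain ⟨s, rfl⟩ := QuotientGroup.mk_surjective v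
      let g : T →* S := (MulAut.conj s⁻¹).toMonoidHom.comp ((ρ.comp P.subtype).comp f)
      have hg : ∀ t, g t ∈ j.range := fun t => by
        have := (j.range.inv_mem (QuotientGroup.eq.1 (hv t trivial)))
        simpa [g, mul_assoc] using this
      exact X.ns T ((MonoidHom.ofInjective hj).symm.toMonoidHom.comp (g.codRestrict _ hg))
        ((MonoidHom.ofInjective hj).symm.injective.comp fun x y e =>
          h ((MulAut.conj s⁻¹).injective (congrArg Subtype.val e)))
    · refine IsSimpleGroup.comm_iff_isSolvable.2 (Group.isSolvable_of_isSolvable_injective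
        (f := f.codRestrict (ρ.comp P.subtype).ker fun x =>
          (h ▸ Subgroup.mem_top x : x ∈ ((ρ.comp P.subtype).comp f).ker))
        fun x y e => hf (congrArg Subtype.val e))
  let φ : X.G →* P := U.ι.codRestrict P fun h =>
    map_derivedSeries_le_derivedSeries U.ι n ⟨h, by
      rw [Group.IsPerfect.derivedSeries_eq_top]; trivial, rfl⟩
  have hφ : ∀ h, (ρ.comp P.subtype) (φ h) = j h := hι
  refine ⟨⟨P, ns⟩, hs.nontrivial, φ, fun x y e => hj (by rw [← hφ, ← hφ, e]), ?_⟩
  intro x hx M hM hxM
  have h1 : M.map (ρ.comp P.subtype) = ⊤ :=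
    (IsSimpleGroup.eq_bot_or_eq_top_of_normal _ (hM.map _ hs)).resolve_left fun h => by
      have := Subgroup.mem_map_of_mem (ρ.comp P.subtype) hxM
      rw [h, Subgroup.mem_bot, hφ, ← map_one j] at this
      exact hx (hj this)
  have h2 : Function.Surjective ((QuotientGroup.mk' M).comp (ρ.comp P.subtype).ker.subtype) := by
    intro q
    obtain ⟨y, rfl⟩ := QuotientGroup.mk_surjective q
    obtain ⟨z, hz, e⟩ : (ρ.comp P.subtype) y ∈ M.map (ρ.comp P.subtype) := h1 ▸ Subgroup.mem_top _
    refine ⟨⟨y * z⁻¹, by rw [MonoidHom.mem_ker, map_mul, map_inv, e, mul_inv_cancel]⟩, ?_⟩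
    exact QuotientGroup.eq.2 (by simpa using hz)
  have h3 := Group.isSolvable_of_surjective h2
  by_contra hne
  have : Nontrivial (P ⧸ M) := QuotientGroup.nontrivial_iff.2 hne
  exact Group.IsPerfect.not_isSolvable (P ⧸ M) h3

noncomputable def sq : ℕ → Gd
  | 0 => (step ⟨Unit, fun _ _ _ _ hf _ _ => hf (Subsingleton.elim _ _)⟩).choose
  | n + 1 => (step (sq n)).choose

noncomputable def ψ (n : ℕ) : (sq n).G →* (sq (n + 1)).G := (step (sq n)).choose_spec.2.choose

lemma ψ_spec (n : ℕ) : Function.Injective (ψ n) ∧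
    ∀ x, x ≠ 1 → ∀ M : Subgroup (sq (n + 1)).G, M.Normal → ψ n x ∈ M → M = ⊤ :=
  (step (sq n)).choose_spec.2.choose_spec

instance : Nontrivial (sq 0).G := (step _).choose_spec.1

open Pool.Agent.H.MP_7538d4_al

abbrev GG : Type := GLim ψ

instance : IsSimpleGroup GG := lim_simple ψ (fun n => (ψ_spec n).1) fun n => (ψ_spec n).2

theorem no_simple (K : Subgroup GG) [Finite K] [IsSimpleGroup K] (a b : K) : a * b = b * a := by
  have hi := jG_inj ψ fun n => (ψ_spec n).1
  choose n hn using exG ψ
  obtain ⟨N, hN⟩ := (Set.finite_range fun x : K => n x).bddAbove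
  have hg : ∀ x : K, K.subtype x ∈ (jG ψ N).range := fun x => hn x N (hN ⟨x, rfl⟩)
  exact (sq N).ns K ((MonoidHom.ofInjective (hi N)).symm.toMonoidHom.comp
      (K.subtype.codRestrict _ hg))
    ((MonoidHom.ofInjective (hi N)).symm.injective.comp fun x y e =>
      Subtype.ext (congrArg (fun z : (jG ψ N).range => z.1) e)) a b

instance : Infinite GG := by
  rw [← not_finite_iff_infinite]
  intro _
  have : IsSimpleGroup (⊤ : Subgroup GG) := Subgroup.topEquiv.isSimpleGroup
  refine Group.IsPerfect.not_isSolvable (sq 0).G (Group.isSolvable_of_comm fun a b => ?_)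
  apply jG_inj ψ (fun n => (ψ_spec n).1) 0
  rw [map_mul, map_mul]
  exact congrArg Subtype.val (no_simple ⊤ ⟨_, trivial⟩ ⟨_, trivial⟩)

end Pool.Agent.H.MP_0b7c94_al
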